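import Pool.Agent.H.MP_d8c2c9_al.B

namespace Pool.Agent.Results.MP_d8c2c9_al.Finite

/-- A set of finitary operations from `A` to `B`: `C n` is its `(n + 1)`-ary part. -/
abbrev Ops (A B : Type) := ∀ n : ℕ, Set ((Fin (n + 1) → A) → B)

/-- `C` is a clonoid from the `R`-module `A` to the `S`-module `B`. -/
structure IsClonoid (R A S B : Type) [Ring R] [AddCommGroup A] [Module R A] [Ring S]
    [AddCommGroup B] [Module S B] (C : Ops A B) : Prop where
  /-- closed under permuting, identifying variables and adding dummy variables -/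
  minor : ∀ (n k : ℕ) (σ : Fin (n + 1) → Fin (k + 1)), ∀ f ∈ C n,
    (fun x : Fin (k + 1) → A => f (fun i => x (σ i))) ∈ C k
  /-- closed under composition with term operations of `A` on the inside -/
  inner : ∀ (n k : ℕ) (r : Fin (n + 1) → Fin (k + 1) → R), ∀ f ∈ C n,
    (fun x : Fin (k + 1) → A => f (fun i => ∑ j, r i j • x j)) ∈ C k
  /-- closed under composition with term operations of `B` on the outside -/
  outer : ∀ (m k : ℕ) (s : Fin (m + 1) → S) (f : Fin (m + 1) → (Fin (k + 1) → A) → B),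
    (∀ i, f i ∈ C k) → (fun x : Fin (k + 1) → A => ∑ i, s i • f i x) ∈ C k

open Pool.Agent.H.MP_d8c2c9_al in
theorem result (R A S B : Type) [Ring R] [AddCommGroup A] [Module R A] [Finite A] [Ring S]
    [AddCommGroup B] [Module S B] [Finite B] (h : Nat.gcd (Nat.card A) (Nat.card B) = 1) :
    Set.Finite {C : Ops A B | IsClonoid R A S B C} := by
  classical
  let _ := Fintype.ofFinite A
  have key : Set.Finite {U : Fam A B | Pull U ∧ SumC U} := by
    refine fin_of_chain _ (fun U hU V hV => ⟨fun m n τ f hf =>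
      ⟨hU.1 m n τ f hf.1, hV.1 m n τ f hf.2⟩, fun m n τ f hf =>
      ⟨hU.2 m n τ f hf.1, hV.2 m n τ f hf.2⟩⟩) (fun U hU V hV => ⟨fun m n τ f hf => ?_,
      fun m n τ f hf => ?_⟩) (fun U hU => acc_sum h U fun i => (hU i).2)
      fun U hU => dcc U fun i => (hU i).1
    · obtain ⟨a, ha, b, hb, rfl⟩ := AddSubgroup.mem_sup.1 hf
      exact AddSubgroup.mem_sup.2 ⟨_, hU.1 m n τ a ha, _, hV.1 m n τ b hb, rfl⟩
    · obtain ⟨a, ha, b, hb, rfl⟩ := AddSubgroup.mem_sup.1 hf
      exact AddSubgroup.mem_sup.2 ⟨_, hU.2 m n τ a ha, _, hV.2 m n τ b hb, rfl⟩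
  refine ((key.image fun U k => (U k : Set _)).insert fun _ => ∅).subset fun C hC => ?_
  by_cases h0 : ∃ n f, f ∈ C n
  · obtain ⟨n, f, hf⟩ := h0
    have z : ∀ k, 0 ∈ C k := fun k => by
      convert hC.outer 0 k 0 _ fun _ => hC.minor n k 0 f hf using 1
      funext x
      simp
    refine Or.inr ⟨fun k => ⟨⟨⟨C k, fun {a b} ha hb => ?_⟩, z k⟩, fun {a} ha => ?_⟩,
      ⟨fun m n τ f hf => hC.minor n m τ f hf, fun m n τ f hf => ?_⟩, rfl⟩
    · convert hC.outer 1 k 1 ![a, b] (Fin.forall_fin_two.2 ⟨ha, hb⟩) using 1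
      funext x
      simp
    · convert hC.outer 0 k (-1) (fun _ => a) fun _ => ha using 1
      funext x
      simp
    · convert hC.inner m n (fun i j => if τ j = i then 1 else 0) f hf using 1
      simp [ite_smul]
  · push Not at h0
    exact Or.inl (funext fun n => Set.eq_empty_of_forall_notMem (h0 n))

end Pool.Agent.Results.MP_d8c2c9_al.Finite
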